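import Pool.Agent.H94.BC.Main
import Pool.Agent.H89.LI.Bd

/-!
The main theorem of `Pool.Agent.H94.BC.Main` with a fourth type of factors: groups in which every subgroup generated by `k`
elements has order at most `F k` (by Zelmanov's theorem this contains the locally finite groups of bounded exponent).
-/

set_option autoImplicit false

universe u v w

namespace Pool.Agent.H89.BC

open Pool.Agent.H94.BC

/-- Every subgroup of `T` generated by `k` elements is finite of order at most `F k`. -/
def FBdd (F : ℕ → ℕ) (T : Type u) [Group T] : Prop :=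
  ∀ s : Finset T, Finite (Subgroup.closure (s : Set T)) ∧ Nat.card (Subgroup.closure (s : Set T)) ≤ F s.card

/-- `G` has a subnormal series of length `h`, each factor of which is nilpotent, or a subdirect product of linear groups of degree
`d` over fields, or a group of elements of order prime to the orders of the elements of `Q`, or a group in which the subgroups
generated by `k` elements have order at most `F k`. -/
def Tame (Q : Type v) [Group Q] (d : ℕ) (F : ℕ → ℕ) : ℕ → ∀ (G : Type u) [Group G], Prop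
  | 0, G, _ => Subsingleton G
  | h + 1, G, _ => ∃ M : Subgroup G, ∃ _ : M.Normal,
      (Group.IsNilpotent (G ⧸ M) ∨ ResLinear d M ∨ PrimeTo (G ⧸ M) Q ∨ FBdd F (G ⧸ M)) ∧ Tame Q d F h M

theorem fbdd_inj {S T : Type u} [Group S] [Group T] (f : S →* T) (hf : Function.Injective f) (F : ℕ → ℕ) (hT : FBdd F T) :
    FBdd F S := by
  classical
  intro s
  have h1 := hT (s.image f)
  have h2 : (Subgroup.closure (s : Set S)).map f = Subgroup.closure ((s.image f : Finset T) : Set T) := by
    rw [MonoidHom.map_closure, Finset.coe_image]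
  rw [← h2, Finset.card_image_of_injective s hf] at h1
  have e := (Subgroup.closure (s : Set S)).equivMapOfInjective f hf
  have := h1.1
  refine ⟨Finite.of_equiv _ e.symm.toEquiv, ?_⟩
  rw [Nat.card_congr e.toEquiv]
  exact h1.2

/-- One step: a finite index subgroup which is mapped into `M` by every homomorphism to a group `T` with `T ⧸ M` of one of the types. -/
theorem step {K : Type u} {Q : Type v} [Group K] [Group Q] {φ : K →* Q} (g : Good φ) (hQ : NoFI Q) (d : ℕ) (F : ℕ → ℕ) :
    ∃ K1 : Subgroup K, K1.FiniteIndex ∧ ∀ (T : Type u) [Group T] (M : Subgroup T) (_ : M.Normal),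
      (Group.IsNilpotent (T ⧸ M) ∨ ResLinear d M ∨ PrimeTo (T ⧸ M) Q ∨ FBdd F (T ⧸ M)) →
        ∀ f : K →* T, ∀ x ∈ K1, f x ∈ M := by
  obtain ⟨A, hA, h1⟩ := Pool.Agent.H94.BC.step g hQ d
  obtain ⟨B, -, hB, h2⟩ := Pool.Agent.H89.LI.bounded'.{u, u} g.fg F
  refine ⟨A ⊓ B, inferInstance, ?_⟩
  intro T _ M hM htype f x hx
  rcases htype with h | h | h | h
  · exact h1 T M hM (Or.inl h) f x hx.1
  · exact h1 T M hM (Or.inr (Or.inl h)) f x hx.1
  · exact h1 T M hM (Or.inr (Or.inr h)) f x hx.1
  · have h3 := h2 (T ⧸ M) h ((QuotientGroup.mk' M).comp f) x hx.2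
    exact (QuotientGroup.eq_one_iff _).1 h3

theorem key {Q : Type v} [Group Q] (hQ : NoFI Q) (d : ℕ) (F : ℕ → ℕ) (h : ℕ) : ∀ {K : Type u} [Group K] {φ : K →* Q}, Good φ →
    ∃ L : Subgroup K, L.FiniteIndex ∧ ∀ (T : Type u) [Group T], Tame Q d F h T → ∀ f : K →* T, ∀ x ∈ L, f x = 1 := by
  induction h with
  | zero =>
    intro K _ φ _
    refine ⟨⊤, inferInstance, fun T _ hT f x _ => ?_⟩
    have : Subsingleton T := hT
    exact Subsingleton.elim _ _
  | succ h ih =>
    intro K _ φ g
    obtain ⟨K1, hK1, h1⟩ := step g hQ d F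
    obtain ⟨L, hL, h2⟩ := ih (good_sub g hQ K1 hK1)
    refine ⟨L.map K1.subtype, ?_, ?_⟩
    · constructor
      rw [Subgroup.index_map_subtype]
      exact mul_ne_zero hL.index_ne_zero hK1.index_ne_zero
    · intro T _ hT f x hx
      obtain ⟨M, hM, htype, hTM⟩ := hT
      obtain ⟨y, hy, rfl⟩ := hx
      have h3 : ∀ z : K1, (f.comp K1.subtype) z ∈ M := fun z => h1 T M hM htype f z z.2
      have h4 := h2 M hTM ((f.comp K1.subtype).codRestrict M h3) y hy
      exact congrArg Subtype.val h4

theorem tame_inj {Q : Type v} [Group Q] (d : ℕ) (F : ℕ → ℕ) (h : ℕ) : ∀ {S T : Type u} [Group S] [Group T] (f : S →* T), Function.Injective f →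
    Tame Q d F h T → Tame Q d F h S := by
  induction h with
  | zero =>
    intro S T _ _ f hf hT
    have : Subsingleton T := hT
    exact hf.subsingleton
  | succ h ih =>
    intro S T _ _ f hf hT
    obtain ⟨M, hM, htype, hTM⟩ := hT
    refine ⟨M.comap f, inferInstance, ?_, ?_⟩
    · have hinj : Function.Injective (QuotientGroup.map (M.comap f) M f le_rfl) := by
        rw [injective_iff_map_eq_one]
        intro a
        obtain ⟨a, rfl⟩ := QuotientGroup.mk'_surjective _ a
        intro ha
        have h1 : QuotientGroup.mk' M (f a) = 1 := ha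
        have h2 : f a ∈ M := (QuotientGroup.eq_one_iff (f a)).1 h1
        exact (QuotientGroup.eq_one_iff a).2 h2
      rcases htype with h1 | h1 | h1 | h1
      · left
        rw [Subgroup.nilpotent_iff_lowerCentralSeries] at h1 ⊢
        obtain ⟨n, hn⟩ := h1
        refine ⟨n, ?_⟩
        rw [eq_bot_iff]
        intro x hx
        have h2 := Subgroup.mem_map_of_mem (QuotientGroup.map (M.comap f) M f le_rfl) hx
        rw [Subgroup.map_lowerCentralSeries] at h2
        have h3 := Subgroup.lowerCentralSeries_mono n le_top h2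
        simp only at h3
        rw [hn, Subgroup.mem_bot] at h3
        rw [Subgroup.mem_bot]
        exact hinj (by rw [h3, map_one])
      · right; left
        intro g hg
        obtain ⟨E, iE, ρ, h2, h3⟩ := h1 (f g) hg
        exact ⟨E, iE, ρ.comp f, fun m hm => h2 (f m) hm, h3⟩
      · right; right; left
        intro t q
        have h2 := h1 (QuotientGroup.map (M.comap f) M f le_rfl t) q
        rwa [orderOf_injective _ hinj] at h2
      · right; right; right
        exact fbdd_inj _ hinj F h1
    · have h1 : ∀ z : M.comap f, (f.comp (M.comap f).subtype) z ∈ M := fun z => z.2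
      refine ih ((f.comp (M.comap f).subtype).codRestrict M h1) ?_ hTM
      intro a b hab
      exact Subtype.ext (hf (congrArg Subtype.val hab))

/-- `Tame` for a smaller group `Q` -/
theorem tame_mono {Q : Type v} {Q' : Type w} [Group Q] [Group Q'] (i : Q' →* Q) (hi : Function.Injective i) (d : ℕ) (F : ℕ → ℕ) (h : ℕ) :
    ∀ {T : Type u} [Group T], Tame Q d F h T → Tame Q' d F h T := by
  induction h with
  | zero =>
    intro T _ hT
    exact hT
  | succ h ih =>
    intro T _ hT
    obtain ⟨M, hM, htype, hTM⟩ := hT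
    refine ⟨M, hM, ?_, ih hTM⟩
    rcases htype with h1 | h1 | h1 | h1
    · exact Or.inl h1
    · exact Or.inr (Or.inl h1)
    · refine Or.inr (Or.inr (Or.inl fun t q => ?_))
      have h2 := h1 t (i q)
      rwa [orderOf_injective i hi] at h2
    · exact Or.inr (Or.inr (Or.inr h1))

/-- the finite residual has no subgroups of finite index -/
theorem noFI_residual {Q : Type v} [Group Q] (hfin : {H : Subgroup Q | H.FiniteIndex}.Finite) :
    ∃ Q0 : Subgroup Q, Q0.FiniteIndex ∧ NoFI Q0 := by
  have : Finite {H : Subgroup Q // H.FiniteIndex} := hfin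
  have h0 : (⨅ H : {H : Subgroup Q // H.FiniteIndex}, (H : Subgroup Q)).FiniteIndex :=
    Subgroup.finiteIndex_iInf fun H => H.2
  refine ⟨⨅ H : {H : Subgroup Q // H.FiniteIndex}, (H : Subgroup Q), h0, ?_⟩
  intro H hH
  have h1 : (H.map (⨅ H : {H : Subgroup Q // H.FiniteIndex}, (H : Subgroup Q)).subtype).FiniteIndex := by
    constructor
    rw [Subgroup.index_map_subtype]
    exact mul_ne_zero hH.index_ne_zero h0.index_ne_zero
  rw [eq_top_iff]
  intro x _
  have h2 : (x : Q) ∈ H.map (⨅ H : {H : Subgroup Q // H.FiniteIndex}, (H : Subgroup Q)).subtype :=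
    (iInf_le (fun H : {H : Subgroup Q // H.FiniteIndex} => (H : Subgroup Q)) ⟨_, h1⟩) x.2
  obtain ⟨y, hy, hxy⟩ := h2
  have : y = x := Subtype.ext hxy
  rwa [← this]

/-- a finitely generated subgroup of `G` mapped onto a finitely generated subgroup of `Q` -/
theorem exists_good {G : Type u} {Q : Type v} [Group G] [Group Q] (φ : G →* Q) (hφ : Function.Surjective φ)
    (hN : LocFin φ.ker) (Q0 : Subgroup Q) (hQ0 : Group.FG Q0) :
    ∃ (K : Subgroup G) (ψ : K →* Q0), Good ψ ∧ ∀ k : K, ((ψ k : Q0) : Q) = φ k := by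
  classical
  obtain ⟨S, hS⟩ := hQ0.out
  choose r hr using hφ
  have hK : ∀ k ∈ Subgroup.closure ((fun s : Q0 => r s) '' (S : Set Q0)), φ k ∈ Q0 := by
    intro k hk
    induction hk using Subgroup.closure_induction with
    | mem x hx =>
      obtain ⟨s, _, rfl⟩ := hx
      simp only [hr]
      exact s.2
    | one => rw [map_one]; exact one_mem _
    | mul x y _ _ hx hy => rw [map_mul]; exact mul_mem hx hy
    | inv x _ hx => rw [map_inv]; exact inv_mem hx
  obtain ⟨K, hKdef⟩ : ∃ K : Subgroup G, K = Subgroup.closure ((fun s : Q0 => r s) '' (S : Set Q0)) := ⟨_, rfl⟩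
  rw [← hKdef] at hK
  refine ⟨K, (φ.comp K.subtype).codRestrict Q0 (fun k => hK k k.2), ⟨?_, ?_, ?_⟩, fun k => rfl⟩
  · rw [Group.fg_iff_subgroup_fg, hKdef]
    refine ⟨S.image (fun s : Q0 => r s), ?_⟩
    rw [Finset.coe_image]
  · rw [← MonoidHom.range_eq_top, eq_top_iff, ← hS, Subgroup.closure_le]
    intro s hs
    have h1 : r s ∈ K := by
      rw [hKdef]
      exact Subgroup.subset_closure ⟨s, hs, rfl⟩
    exact ⟨⟨r s, h1⟩, Subtype.ext (hr s)⟩
  · intro s hs
    have h1 : ((s.image (fun x : K => (x : G)) : Finset G) : Set G) ⊆ (φ.ker : Set G) := by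
      intro x hx
      rw [Finset.coe_image] at hx
      obtain ⟨y, hy, rfl⟩ := hx
      have h2 := hs hy
      rw [SetLike.mem_coe, MonoidHom.mem_ker] at h2
      exact congrArg Subtype.val h2
    have h3 := hN _ h1
    have h4 : (Subgroup.closure (s : Set K)).map K.subtype = Subgroup.closure ((s.image (fun x : K => (x : G)) : Finset G) : Set G) := by
      rw [MonoidHom.map_closure, Finset.coe_image]
      rfl
    rw [← h4] at h3
    exact Finite.of_equiv _ ((Subgroup.closure (s : Set K)).equivMapOfInjective K.subtype K.subtype_injective).symm.toEquiv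

theorem main {G : Type u} {Q : Type v} [Group G] [Group Q] (d : ℕ) (F : ℕ → ℕ) (h : ℕ) (φ : G →* Q) (hφ : Function.Surjective φ) (hN : LocFin φ.ker)
    (hG : ∀ g : G, g ≠ 1 → ∃ U : Subgroup G, ∃ _ : U.Normal, U.FiniteIndex ∧ g ∉ U ∧ Tame Q d F h (φ.ker.map (QuotientGroup.mk' U)))
    (hQ : Group.FG Q) (hfin : {H : Subgroup Q | H.FiniteIndex}.Finite) : Finite Q := by
  obtain ⟨Q0, hQ0, hNo⟩ := noFI_residual hfin
  have hfg : Group.FG Q0 := inferInstance
  obtain ⟨K, ψ, hgood, hψ⟩ := exists_good φ hφ hN Q0 hfg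
  obtain ⟨L, hL, hkill⟩ := key.{u, v} hNo d F h hgood
  have hbot : L = ⊥ := by
    rw [eq_bot_iff]
    intro x hx
    rw [Subgroup.mem_bot]
    by_contra hx1
    have hx1' : (x : G) ≠ 1 := fun hh => hx1 (Subtype.ext hh)
    obtain ⟨U, hU, hUf, hxU, hT⟩ := hG x hx1'
    -- `K = (K ∩ U) (K ∩ ker)`
    have hVf : (U.comap K.subtype).FiniteIndex := (inferInstance : (U.subgroupOf K).FiniteIndex)
    have htop : (U.comap K.subtype).map ψ = ⊤ := by
      apply hNo
      constructor
      intro h0
      have h1 : (U.comap K.subtype).index ≠ 0 := hVf.index_ne_zero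
      have h2 := Subgroup.index_map_dvd (U.comap K.subtype) (f := ψ) hgood.sur
      rw [h0, zero_dvd_iff] at h2
      exact h1 h2
    have hland : ∀ k : K, ((QuotientGroup.mk' U).comp K.subtype) k ∈ φ.ker.map (QuotientGroup.mk' U) := by
      intro k
      have h1 : ψ k ∈ (U.comap K.subtype).map ψ := by rw [htop]; trivial
      obtain ⟨z, hz, hzk⟩ := h1
      refine ⟨(k : G) * (z : G)⁻¹, ?_, ?_⟩
      · have h2 : φ (z : G) = φ (k : G) := by rw [← hψ, ← hψ, hzk]
        rw [SetLike.mem_coe, MonoidHom.mem_ker, map_mul, map_inv, h2, mul_inv_cancel]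
      · have h3 : QuotientGroup.mk' U (z : G) = 1 := (QuotientGroup.eq_one_iff _).2 hz
        rw [map_mul, map_inv, h3, inv_one, mul_one]
        rfl
    have h4 := hkill _ (tame_mono Q0.subtype Q0.subtype_injective d F h hT)
      (((QuotientGroup.mk' U).comp K.subtype).codRestrict (φ.ker.map (QuotientGroup.mk' U)) hland) x hx
    have h5 : QuotientGroup.mk' U (x : G) = 1 := congrArg Subtype.val h4
    exact hxU ((QuotientGroup.eq_one_iff _).1 h5)
  have hKfin : Finite K := by
    rw [hbot] at hL
    have h1 := hL.index_ne_zero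
    rw [Subgroup.index_bot] at h1
    exact Nat.finite_of_card_ne_zero h1
  have hQ0fin : Finite Q0 := Finite.of_surjective ψ hgood.sur
  have h1 := Subgroup.card_mul_index Q0
  refine Nat.finite_of_card_ne_zero (α := Q) ?_
  rw [← h1]
  exact mul_ne_zero Nat.card_pos.ne' hQ0.index_ne_zero

end Pool.Agent.H89.BC
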