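import Mathlib
import Pool.Agent.H15.FI.M7

/-!
# MP_d9a994: the class of kernels closed under extensions and local unions (helper89)
-/

set_option autoImplicit false

namespace Pool.Agent.H89.BC

open Pool.Agent.H94.BC
open Pool.Agent.H15.FI (cl mem_cl IsMaxP ResFin BP le_cl)

universe u v

/-- a proper normal subgroup of finite index is contained in one with simple quotient -/
theorem exists_simple {K : Type u} [Group K] (W : Subgroup K) (hW : W.FiniteIndex) (hne : W ≠ ⊤) [hWn : W.Normal] :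
    ∃ M : Subgroup K, ∃ _ : M.Normal, W ≤ M ∧ M ≠ ⊤ ∧ IsSimpleGroup (K ⧸ M) := by
  classical
  have hex : ∃ n : ℕ, ∃ M : Subgroup K, M.Normal ∧ W ≤ M ∧ M ≠ ⊤ ∧ M.index = n := ⟨W.index, W, hWn, le_rfl, hne, rfl⟩
  obtain ⟨M, hMn, hWM, hM, hMi⟩ := Nat.find_spec hex
  have hmin : ∀ M' : Subgroup K, M'.Normal → W ≤ M' → M' ≠ ⊤ → M.index ≤ M'.index := by
    intro M' h1 h2 h3
    rw [hMi]
    exact Nat.find_min' hex ⟨M', h1, h2, h3, rfl⟩
  refine ⟨M, hMn, hWM, hM, ?_⟩
  have hMf : M.FiniteIndex := Subgroup.finiteIndex_of_le hWM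
  have hnt : Nontrivial (K ⧸ M) := by
    by_contra h
    rw [not_nontrivial_iff_subsingleton] at h
    apply hM
    rw [eq_top_iff]
    intro x _
    exact (QuotientGroup.eq_one_iff x).1 (Subsingleton.elim _ _)
  refine { exists_pair_ne := hnt.exists_pair_ne, eq_bot_or_eq_top_of_normal := fun H hH => ?_ }
  by_cases htop : H.comap (QuotientGroup.mk' M) = ⊤
  · right
    rw [eq_top_iff]
    intro y _
    obtain ⟨x, rfl⟩ := QuotientGroup.mk_surjective y
    have hx : x ∈ H.comap (QuotientGroup.mk' M) := by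
      rw [htop]
      exact Subgroup.mem_top x
    exact hx
  · left
    have hle : M ≤ H.comap (QuotientGroup.mk' M) := by
      intro x hx
      change (QuotientGroup.mk x : K ⧸ M) ∈ H
      rw [(QuotientGroup.eq_one_iff x).2 hx]
      exact H.one_mem
    have h1 := hmin _ (hH.comap _) (hWM.trans hle) htop
    have h2 := Subgroup.relIndex_mul_index hle
    have h3 : 0 < (H.comap (QuotientGroup.mk' M)).index := by
      have hf : (H.comap (QuotientGroup.mk' M)).FiniteIndex := Subgroup.finiteIndex_of_le hle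
      exact Nat.pos_of_ne_zero hf.index_ne_zero
    have h4 : M.index ≠ 0 := hMf.index_ne_zero
    have h5 : M.relIndex (H.comap (QuotientGroup.mk' M)) ≤ 1 := by
      by_contra h6
      have h7 : 2 ≤ M.relIndex (H.comap (QuotientGroup.mk' M)) := by omega
      nlinarith
    have h8 : M.relIndex (H.comap (QuotientGroup.mk' M)) = 1 := by
      have h9 : M.relIndex (H.comap (QuotientGroup.mk' M)) ≠ 0 := by
        intro h10
        rw [h10, zero_mul] at h2
        exact h4 h2.symm
      omega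
    have h9 := Subgroup.relIndex_eq_one.1 h8
    rw [eq_bot_iff]
    intro y hy
    obtain ⟨x, rfl⟩ := QuotientGroup.mk_surjective y
    rw [Subgroup.mem_bot]
    exact (QuotientGroup.eq_one_iff x).2 (h9 hy)

/-- every non-abelian simple quotient `E ⧸ M` of a finite subgroup `E` of `B`, with `E ∩ C ≤ M`, is of one of the types of the
factors in `Tame` -/
def SimGood (Q : Type v) [Group Q] (d : ℕ) (F : ℕ → ℕ) {G : Type u} [Group G] (B C : Subgroup G) : Prop :=
  ∀ E : Subgroup G, E ≤ B → Finite E → ∀ (M : Subgroup E) [M.Normal], C.subgroupOf E ≤ M → IsSimpleGroup (E ⧸ M) →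
    (∃ a b : E ⧸ M, a * b ≠ b * a) → Tame Q d F 1 (E ⧸ M)

theorem tame_one_comm {Q : Type v} [Group Q] (d : ℕ) (F : ℕ → ℕ) {T : Type u} [Group T] (h : ∀ a b : T, a * b = b * a) :
    Tame Q d F 1 T := by
  refine ⟨⊥, inferInstance, Or.inl ?_, ?_⟩
  · letI : CommGroup (T ⧸ (⊥ : Subgroup T)) :=
      { (inferInstance : Group (T ⧸ (⊥ : Subgroup T))) with
        mul_comm := by
          intro a b
          obtain ⟨a, rfl⟩ := QuotientGroup.mk_surjective a
          obtain ⟨b, rfl⟩ := QuotientGroup.mk_surjective b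
          rw [← QuotientGroup.mk_mul, h a b, QuotientGroup.mk_mul] }
    exact CommGroup.isNilpotent
  · exact inferInstanceAs (Subsingleton (⊥ : Subgroup T))

theorem lim_aux {G : Type u} {Q : Type v} [Group G] [Group Q] (Q0 : Subgroup Q) (hNo : NoFI Q0)
    (B C : Subgroup G) (hBLF : LocFin B) (d : ℕ) (F : ℕ → ℕ) (hS : SimGood Q d F B C)
    (K : Subgroup G) (ψ : K →* Q0) (hg : Good ψ)
    (hdense : ∀ M : Subgroup K, M.Normal → M.FiniteIndex → ∀ k : K, ∃ b : K, (b : G) ∈ B ∧ b⁻¹ * k ∈ M) :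
    ∃ s : Finset G, (↑s : Set G) ⊆ (B : Set G) ∧
      ∀ A : Subgroup G, A.Normal → (↑s : Set G) ⊆ (A : Set G) → C ≤ A → K ≤ cl A := by
  classical
  obtain ⟨L, hL, hkill⟩ := key.{u, v} hNo d F 1 hg
  have hLq : Finite (K ⧸ L) := Subgroup.finite_quotient_of_finiteIndex
  have hLc : L.normalCore.FiniteIndex := inferInstance
  have hrep : ∀ q : K ⧸ L, ∃ b : K, (b : G) ∈ B ∧ (QuotientGroup.mk b : K ⧸ L) = q := by
    intro q
    obtain ⟨k, rfl⟩ := QuotientGroup.mk_surjective q
    obtain ⟨b, hb, hbk⟩ := hdense L.normalCore inferInstance hLc k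
    exact ⟨b, hb, QuotientGroup.eq.2 (L.normalCore_le hbk)⟩
  choose r hrB hrq using hrep
  have : Fintype (K ⧸ L) := Fintype.ofFinite _
  refine ⟨Finset.image (fun q => (r q : G)) Finset.univ, ?_, ?_⟩
  · intro x hx
    obtain ⟨q, _, rfl⟩ := Finset.mem_image.1 (Finset.mem_coe.1 hx)
    exact hrB q
  · intro A hA hsA hCA
    intro x hx
    rw [mem_cl]
    intro U hU hUf
    by_contra hxU
    -- the finite quotient
    have hWf : ((A ⊔ U).subgroupOf K).FiniteIndex := by
      have h1 : (A ⊔ U).FiniteIndex := Subgroup.finiteIndex_of_le (le_sup_right : U ≤ A ⊔ U)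
      infer_instance
    have hWne : (A ⊔ U).subgroupOf K ≠ ⊤ := by
      intro h
      exact hxU (Subgroup.subgroupOf_eq_top.1 h hx)
    obtain ⟨M, hMn, hWM, hM, hMs⟩ := exists_simple ((A ⊔ U).subgroupOf K) hWf hWne
    have hMf : M.FiniteIndex := Subgroup.finiteIndex_of_le hWM
    have hLM : ∀ y ∈ L, y ∈ M := by
      have hT : Tame Q0 d F 1 (K ⧸ M) := by
        by_cases hcomm : ∀ a b : K ⧸ M, a * b = b * a
        · exact tame_one_comm d _ hcomm
        · push Not at hcomm
          have hfin : Finite (K ⧸ M) := Subgroup.finite_quotient_of_finiteIndex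
          have : Fintype (K ⧸ M) := Fintype.ofFinite _
          have hrep2 : ∀ t : K ⧸ M, ∃ b : K, (b : G) ∈ B ∧ (QuotientGroup.mk b : K ⧸ M) = t := by
            intro t
            obtain ⟨k, rfl⟩ := QuotientGroup.mk_surjective t
            obtain ⟨b, hb, hbk⟩ := hdense M hMn hMf k
            exact ⟨b, hb, QuotientGroup.eq.2 hbk⟩
          choose r2 hr2B hr2q using hrep2
          obtain ⟨s2, hs2⟩ : ∃ s2 : Finset G, s2 = Finset.image (fun t => (r2 t : G)) Finset.univ := ⟨_, rfl⟩
          obtain ⟨E, hE⟩ : ∃ E : Subgroup G, E = Subgroup.closure (↑s2 : Set G) := ⟨_, rfl⟩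
          have hs2B : (↑s2 : Set G) ⊆ (B : Set G) := by
            intro y hy
            rw [hs2] at hy
            obtain ⟨t, _, rfl⟩ := Finset.mem_image.1 (Finset.mem_coe.1 hy)
            exact hr2B t
          have hEB : E ≤ B := by
            rw [hE, Subgroup.closure_le]
            exact hs2B
          have hEK : E ≤ K := by
            rw [hE, Subgroup.closure_le]
            intro y hy
            rw [hs2] at hy
            obtain ⟨t, _, rfl⟩ := Finset.mem_image.1 (Finset.mem_coe.1 hy)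
            exact (r2 t).2
          have hEf : Finite E := by
            rw [hE]
            exact hBLF s2 hs2B
          obtain ⟨f, hf⟩ : ∃ f : E →* K ⧸ M, f = (QuotientGroup.mk' M).comp (Subgroup.inclusion hEK) := ⟨_, rfl⟩
          have hfs : Function.Surjective f := by
            intro t
            have hmem : (r2 t : G) ∈ E := by
              rw [hE]
              apply Subgroup.subset_closure
              rw [hs2]
              exact Finset.mem_coe.2 (Finset.mem_image.2 ⟨t, Finset.mem_univ _, rfl⟩)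
            refine ⟨⟨(r2 t : G), hmem⟩, ?_⟩
            rw [hf]
            exact hr2q t
          have hCM : C.subgroupOf E ≤ f.ker := by
            intro y hy
            rw [MonoidHom.mem_ker, hf]
            refine (QuotientGroup.eq_one_iff _).2 (hWM ?_)
            exact (le_sup_left : A ≤ A ⊔ U) (hCA (Subgroup.mem_subgroupOf.1 hy))
          have e := QuotientGroup.quotientKerEquivOfSurjective f hfs
          have hnt : Nontrivial (E ⧸ f.ker) := e.toEquiv.nontrivial
          have hsim : IsSimpleGroup (E ⧸ f.ker) :=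
            IsSimpleGroup.isSimpleGroup_of_surjective e.symm.toMonoidHom e.symm.surjective
          have hT1 := hS E hEB hEf f.ker hCM hsim (by
            obtain ⟨a, b, hab⟩ := hcomm
            refine ⟨e.symm a, e.symm b, fun h => hab ?_⟩
            rw [← map_mul, ← map_mul] at h
            exact e.symm.injective h)
          have hT2 := tame_inj d F 1 e.symm.toMonoidHom e.symm.injective hT1
          exact Pool.Agent.H15.FI.tame_mono (fun q' : Q0 => ⟨(q' : Q), by rw [Subgroup.orderOf_coe]⟩) d F 1 _ hT2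
      intro y hy
      exact (QuotientGroup.eq_one_iff y).1 (hkill (K ⧸ M) hT (QuotientGroup.mk' M) y hy)
    apply hM
    rw [eq_top_iff]
    intro k _
    have h1 : (r (QuotientGroup.mk k) : G) ∈ A := by
      apply hsA
      exact Finset.mem_coe.2 (Finset.mem_image.2 ⟨_, Finset.mem_univ _, rfl⟩)
    have h2 : r (QuotientGroup.mk k) ∈ M := hWM (Subgroup.mem_subgroupOf.2 ((le_sup_left : A ≤ A ⊔ U) h1))
    have h3 : (r (QuotientGroup.mk k))⁻¹ * k ∈ M := hLM _ (QuotientGroup.eq.1 (hrq (QuotientGroup.mk k)))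
    have h4 := M.mul_mem h2 h3
    rwa [mul_inv_cancel_left] at h4

/-- the two types of factors `B / A` -/
def Factor (Q : Type v) [Group Q] {G : Type u} [Group G] (A B : Subgroup G) [A.Normal] : Prop :=
  (∃ d F h, ∀ K : Subgroup G, K.Normal → K.FiniteIndex → ∀ x : G, x ∉ A ⊔ K →
    ∃ (K' : Subgroup G) (_ : K'.Normal), K'.FiniteIndex ∧ x ∉ A ⊔ K' ∧
      Tame Q d F h (B.map (QuotientGroup.mk' (A ⊔ K')))) ∨
  ∀ p : ℕ, p.Prime → (∃ q : Q, orderOf q = p) →
    ∃ P : Subgroup (G ⧸ A), IsMaxP p (B.map (QuotientGroup.mk' A)) P ∧ Finite P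

/-- the class of normal subgroups of `G`: `1` is in it; if `A` is in it, `A ≤ B` is normal in `G` and `B / A` is of one of the two
types, `B` is in it; if `C ≤ B`, `B` is normal in `G`, every finite subset of `B` is contained in a member `A` with `C ≤ A ≤ B`,
and the non-abelian simple quotients `E / M` with `E ∩ C ≤ M` of the finite subgroups `E` of `B` are of the types of `Tame` for
some `d` and `F`, then `B` is in it, if `G` is finitely generated or `B` is the kernel. -/
inductive Cls {G : Type u} {Q : Type v} [Group G] [Group Q] (φ : G →* Q) : Subgroup G → Prop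
  | bot : Cls φ ⊥
  | ext (A B : Subgroup G) [A.Normal] [B.Normal] (hA : Cls φ A) (hAB : A ≤ B) (hfac : Factor Q A B) : Cls φ B
  | union (B C : Subgroup G) [B.Normal] (d : ℕ) (F : ℕ → ℕ) (hfg : Group.FG G ∨ B = φ.ker) (A : Finset G → Subgroup G)
      (hA : ∀ s : Finset G, (↑s : Set G) ⊆ (B : Set G) → Cls φ (A s))
      (hsA : ∀ s : Finset G, (↑s : Set G) ⊆ (B : Set G) → (↑s : Set G) ⊆ (A s : Set G) ∧ C ≤ A s ∧ A s ≤ B)
      (hS : SimGood Q d F B C) : Cls φ B

theorem Cls.normal {G : Type u} {Q : Type v} [Group G] [Group Q] {φ : G →* Q} {B : Subgroup G} (h : Cls φ B) : B.Normal := by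
  cases h with
  | bot => infer_instance
  | ext A B hA hAB hfac => infer_instance
  | union B C d F hfg A hA hsA hS => infer_instance

/-- in a finitely generated group the closure of a normal subgroup with large image has finite index -/
theorem cl_fi {G : Type u} {Q : Type v} [Group G] [Group Q] (φ : G →* Q) (hφ : Function.Surjective φ)
    (hLF : Pool.Agent.H15.FI.LocFin φ.ker)
    (hfg : Group.FG G) (B : Subgroup G) [hB : B.Normal] (hC : ((cl B).map φ).FiniteIndex) : (cl B).FiniteIndex := by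
  have hn : (cl B).Normal := Pool.Agent.H15.FI.cl_normal B
  have hmk := QuotientGroup.mk'_surjective (cl B)
  have hfgq : Group.FG (G ⧸ cl B) := Group.fg_of_surjective hmk
  obtain ⟨R, hR⟩ : ∃ R : Subgroup (G ⧸ cl B), R = φ.ker.map (QuotientGroup.mk' (cl B)) := ⟨_, rfl⟩
  have hRf : R.FiniteIndex := by
    have h1 : (((cl B).map φ).comap φ).FiniteIndex := Pool.Agent.H15.FI.fi_comap hφ hC
    have h2 : (cl B ⊔ φ.ker).FiniteIndex := by
      rw [← Subgroup.comap_map_eq]
      exact h1
    have h3 := Pool.Agent.H15.FI.fi_map hmk h2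
    rw [Subgroup.map_sup] at h3
    have h4 : (cl B).map (QuotientGroup.mk' (cl B)) = ⊥ := by
      rw [Subgroup.map_eq_bot_iff, QuotientGroup.ker_mk']
    rw [h4, bot_sup_eq] at h3
    rw [hR]
    exact h3
  have hRfg : Group.FG R := inferInstance
  have hRLF : Pool.Agent.H15.FI.LocFin R := by
    rw [hR]
    exact hLF.map _
  obtain ⟨S, hS⟩ := (Group.fg_iff_subgroup_fg _).1 hRfg
  have h3 : Finite R := by
    have h4 := hRLF S (by
      rw [← hS]
      exact Subgroup.subset_closure)
    rwa [hS] at h4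
  have h5 : Finite (G ⧸ cl B) := by
    apply Nat.finite_of_card_ne_zero
    rw [← R.card_mul_index]
    exact mul_ne_zero Nat.card_pos.ne' hRf.index_ne_zero
  exact Subgroup.finiteIndex_of_finite_quotient

theorem union_step {G : Type u} {Q : Type v} [Group G] [Group Q] (φ : G →* Q) (hφ : Function.Surjective φ)
    (hLF : LocFin φ.ker) (hQfg : Group.FG Q) (hQ0 : {H : Subgroup Q | H.FiniteIndex}.Finite)
    (B C : Subgroup G) [hBn : B.Normal] (hB : B ≤ φ.ker) (d : ℕ) (F : ℕ → ℕ) (hfg : Group.FG G ∨ B = φ.ker)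
    (hS : SimGood Q d F B C) (hC : ((cl B).map φ).FiniteIndex) :
    ∃ s : Finset G, (↑s : Set G) ⊆ (B : Set G) ∧
      ∀ A : Subgroup G, A.Normal → (↑s : Set G) ⊆ (A : Set G) → C ≤ A → ((cl A).map φ).FiniteIndex := by
  have hBLF : LocFin B := fun s hs => hLF s (hs.trans hB)
  obtain ⟨Q0, hQ0f, hNo⟩ := noFI_residual hQ0
  have hQ0fg : Group.FG Q0 := inferInstance
  have hall : ∀ M : Subgroup Q, M.FiniteIndex → Q0 ≤ M := by
    intro M hM
    have h1 := hNo (M.subgroupOf Q0) inferInstance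
    exact Subgroup.subgroupOf_eq_top.1 h1
  -- it is enough to find `K`
  suffices h : ∃ (K : Subgroup G) (ψ : K →* Q0), Good ψ ∧ (∀ k : K, ((ψ k : Q0) : Q) = φ k) ∧
      ∀ M : Subgroup K, M.Normal → M.FiniteIndex → ∀ k : K, ∃ b : K, (b : G) ∈ B ∧ b⁻¹ * k ∈ M by
    obtain ⟨K, ψ, hg, hψ, hd⟩ := h
    obtain ⟨s, hsB, hs⟩ := lim_aux Q0 hNo B C hBLF d F hS K ψ hg hd
    refine ⟨s, hsB, fun A hA hsA hCA => ?_⟩
    refine Subgroup.finiteIndex_of_le (H := Q0) ?_
    intro q hq
    obtain ⟨k, hk⟩ := hg.sur ⟨q, hq⟩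
    refine ⟨k, hs A hA hsA hCA k.2, ?_⟩
    rw [← hψ, hk]
  rcases hfg with hfg | hker
  · have hclf : (cl B).FiniteIndex := cl_fi φ hφ hLF hfg B hC
    have hLF' : Pool.Agent.H15.FI.LocFin φ.ker := hLF
    have hQ0c : (Q0.comap φ).FiniteIndex := Pool.Agent.H15.FI.fi_comap hφ hQ0f
    obtain ⟨K, hK⟩ : ∃ K : Subgroup G, K = cl B ⊓ Q0.comap φ := ⟨_, rfl⟩
    have hKf : K.FiniteIndex := by
      rw [hK]
      infer_instance
    have hBK : B ≤ K := by
      rw [hK]
      refine le_inf (le_cl B) fun x hx => ?_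
      rw [Subgroup.mem_comap, MonoidHom.mem_ker.1 (hB hx)]
      exact Q0.one_mem
    have hKQ : ∀ k : K, φ k ∈ Q0 := by
      intro k
      exact (Subgroup.mem_inf.1 (hK.le k.2)).2
    obtain ⟨ψ, hψ⟩ : ∃ ψ : K →* Q0, ∀ k : K, ((ψ k : Q0) : Q) = φ k :=
      ⟨(φ.comp K.subtype).codRestrict Q0 hKQ, fun k => rfl⟩
    have hsur : Function.Surjective ψ := by
      rintro ⟨q, hq⟩
      have h1 : (K.map φ).FiniteIndex := Pool.Agent.H15.FI.fi_map hφ hKf
      obtain ⟨k, hk, hkq⟩ := hall _ h1 hq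
      exact ⟨⟨k, hk⟩, Subtype.ext ((hψ _).trans hkq)⟩
    refine ⟨K, ψ, ⟨inferInstance, hsur, ?_⟩, hψ, ?_⟩
    · have h1 : ψ.ker ≤ φ.ker.comap K.subtype := by
        intro x hx
        rw [MonoidHom.mem_ker] at hx
        rw [Subgroup.mem_comap, MonoidHom.mem_ker]
        change φ x.1 = 1
        rw [← hψ, hx]
        rfl
      exact (hLF'.comap _ K.subtype_injective).mono h1
    · intro M hM hMf k
      have h1 : (M.map K.subtype).FiniteIndex := by
        refine ⟨?_⟩
        rw [Subgroup.index_map_subtype]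
        exact mul_ne_zero hMf.index_ne_zero hKf.index_ne_zero
      have h2 : (M.map K.subtype).normalCore.FiniteIndex := inferInstance
      have h3 : (k : G) ∈ cl B := (Subgroup.mem_inf.1 (hK.le k.2)).1
      have h5 := mem_cl.1 h3 _ inferInstance h2
      obtain ⟨b, hb, m, hm, hbm⟩ := Subgroup.mem_sup_of_normal_right.1 h5
      obtain ⟨m', hm', hmm⟩ := Subgroup.normalCore_le _ hm
      refine ⟨⟨b, hBK hb⟩, hb, ?_⟩
      have h6 : (⟨b, hBK hb⟩ : K)⁻¹ * k = m' := by
        apply Subtype.ext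
        change b⁻¹ * (k : G) = (m' : G)
        rw [← hbm, inv_mul_cancel_left]
        exact hmm.symm
      rw [h6]
      exact hm'
  · obtain ⟨K, ψ, hg, hψ⟩ := exists_good φ hφ hLF Q0 hQ0fg
    refine ⟨K, ψ, hg, hψ, ?_⟩
    intro M hM hMf k
    have h1 : (M.map ψ).FiniteIndex := Pool.Agent.H15.FI.fi_map hg.sur hMf
    have h2 := hNo _ h1
    have h3 : ψ k ∈ M.map ψ := by
      rw [h2]
      exact Subgroup.mem_top _
    obtain ⟨m, hm, hmk⟩ := h3
    refine ⟨k * m⁻¹, ?_, ?_⟩
    · rw [hker, MonoidHom.mem_ker]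
      change φ ((k * m⁻¹ : K) : G) = 1
      rw [← hψ, map_mul, map_inv, hmk, mul_inv_cancel]
      rfl
    · have h4 : (k * m⁻¹)⁻¹ * k = m := by group
      rw [h4]
      exact hm

/-- the theorem -/
theorem cls {G : Type u} {Q : Type v} [Group G] [Group Q] (φ : G →* Q) (hφ : Function.Surjective φ)
    (hRF : ResFin G) (hLF : LocFin φ.ker) (hQt : ∀ q : Q, IsOfFinOrder q) (hQfg : Group.FG Q)
    (hQ0 : {H : Subgroup Q | H.FiniteIndex}.Finite) (h : Cls φ φ.ker) : Finite Q := by
  have key : ∀ B : Subgroup G, Cls φ B → B ≤ φ.ker → ((cl B).map φ).FiniteIndex → Finite Q := by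
    intro B hB
    induction hB with
    | bot =>
      intro _ h1
      rw [Pool.Agent.H15.FI.cl_bot hRF, Subgroup.map_bot] at h1
      apply Nat.finite_of_card_ne_zero
      rw [← Subgroup.index_bot]
      exact h1.index_ne_zero
    | ext A B hA hAB hfac ih =>
      intro hBk hC
      have hB : Pool.Agent.H15.FI.LocFin B := fun s hs => hLF s (hs.trans hBk)
      refine ih (hAB.trans hBk) (Pool.Agent.H15.FI.step φ hφ hLF hQt hQfg hQ0 A B hB ?_ hC)
      rcases hfac with h3 | h3
      · exact Or.inl h3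
      · refine Or.inr ?_
        intro p hp hpQ
        obtain ⟨P, hP, hPf⟩ := h3 p hp hpQ
        exact BP.of_maxP hp (hB.map _) hP hPf
    | union B C d F hfg A hA hsA hS ih =>
      intro hBk hC
      obtain ⟨s, hsB, hs⟩ := union_step φ hφ hLF hQfg hQ0 B C hBk d F hfg hS hC
      obtain ⟨h1, h2, h3⟩ := hsA s hsB
      exact ih s hsB (h3.trans hBk) (hs (A s) (hA s hsB).normal h1 h2)
  exact key _ h le_rfl (Pool.Agent.H15.FI.cl_ker φ hφ hQ0)

/-- a set of subgroups of `G` closed under the operations of `Cls` -/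
def Closed {G : Type u} {Q : Type v} [Group G] [Group Q] (φ : G →* Q) (CC : Set (Subgroup G)) : Prop :=
  ⊥ ∈ CC ∧
  (∀ (A B : Subgroup G) [A.Normal] [B.Normal], A ∈ CC → A ≤ B → Factor Q A B → B ∈ CC) ∧
  ∀ (B C : Subgroup G) [B.Normal] (d : ℕ) (F : ℕ → ℕ), (Group.FG G ∨ B = φ.ker) →
    (∀ s : Finset G, (↑s : Set G) ⊆ (B : Set G) → ∃ A ∈ CC, (↑s : Set G) ⊆ (A : Set G) ∧ C ≤ A ∧ A ≤ B) →
    SimGood Q d F B C → B ∈ CC

theorem closed_cls {G : Type u} {Q : Type v} [Group G] [Group Q] (φ : G →* Q) : Closed φ {B | Cls φ B} := by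
  classical
  refine ⟨Cls.bot, ?_, ?_⟩
  · intro A B hA hB h1 h2 h3
    exact Cls.ext A B h1 h2 h3
  · intro B C hB d F hfg hA hS
    refine Cls.union B C d F hfg (fun s => if h : (↑s : Set G) ⊆ (B : Set G) then Classical.choose (hA s h) else ⊥) ?_ ?_ hS
    · intro s hs
      show Cls φ (if h : (↑s : Set G) ⊆ (B : Set G) then Classical.choose (hA s h) else ⊥)
      rw [dif_pos hs]
      exact (Classical.choose_spec (hA s hs)).1
    · intro s hs
      show (↑s : Set G) ⊆ ((if h : (↑s : Set G) ⊆ (B : Set G) then Classical.choose (hA s h) else ⊥ : Subgroup G) : Set G) ∧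
        C ≤ (if h : (↑s : Set G) ⊆ (B : Set G) then Classical.choose (hA s h) else ⊥) ∧
        (if h : (↑s : Set G) ⊆ (B : Set G) then Classical.choose (hA s h) else ⊥) ≤ B
      rw [dif_pos hs]
      exact (Classical.choose_spec (hA s hs)).2

/-- the theorem, with the smallest class -/
theorem cls' {G : Type u} {Q : Type v} [Group G] [Group Q] (φ : G →* Q) (hφ : Function.Surjective φ)
    (hRF : ResFin G) (hLF : LocFin φ.ker) (hQt : ∀ q : Q, IsOfFinOrder q) (hQfg : Group.FG Q)
    (hQ0 : {H : Subgroup Q | H.FiniteIndex}.Finite) (h : ∀ CC : Set (Subgroup G), Closed φ CC → φ.ker ∈ CC) : Finite Q :=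
  cls φ hφ hRF hLF hQt hQfg hQ0 (h _ (closed_cls φ))

end Pool.Agent.H89.BC
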